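import Pool.Agent.L5helper54.NC.Basic

/-!
# A new pair of ports, and closing a pair of ports
-/

namespace L5lead.NC

open Finset MvPolynomial L5helper59.DC

set_option linter.unusedSectionVars false

section Aux

variable {α β : Type} [Fintype α] [Fintype β] [DecidableEq α] [DecidableEq β]

/-- a matrix with one more row and one more column: the new row has the entries `u` and `1`,
the new column the entries `v` and `1` -/
def bord {R : Type*} [CommRing R] {A B : Type} (N : A → B → R) (u : B → R) (v : A → R) :
    Option A → Option B → R
  | some x, some y => N x y
  | none, some y => u y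
  | some x, none => v x
  | none, none => 1

theorem pm_bord {R : Type*} [CommRing R] {A B : Type} [Fintype B] [DecidableEq A]
    [DecidableEq B] (N : A → B → R) (a₀ : A) (b₀ : B) (S : Finset A) (T : Finset B)
    (ha : a₀ ∈ S) (hb : b₀ ∈ T) :
    pm (bord N (fun y => if y = b₀ then 1 else 0) (fun x => if x = a₀ then 1 else 0))
      (insert none (S.map Function.Embedding.some)) (insert none (T.map Function.Embedding.some)) =
      pm N (S.erase a₀) (T.erase b₀) + pm N S T := by
  set N' := bord N (fun y => if y = b₀ then (1 : R) else 0) (fun x => if x = a₀ then (1 : R) else 0)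
    with hN'
  have hmap : ∀ (S : Finset A) (T : Finset B),
      pm N' (S.map Function.Embedding.some) (T.map Function.Embedding.some) = pm N S T :=
    fun S T => pm_map N' Function.Embedding.some Function.Embedding.some S T
  have hnS : (none : Option A) ∉ S.map Function.Embedding.some := by simp
  have hnT : (none : Option B) ∉ T.map Function.Embedding.some := by simp
  rw [pm_insert N' _ _ none hnS, sum_insert hnT, erase_insert hnT, hmap]
  have h1 : N' none none = 1 := rfl
  rw [h1, one_mul, add_comm]
  congr 1
  rw [sum_map, sum_eq_single b₀]
  · have h2 : N' none (Function.Embedding.some b₀) = 1 := by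
      show (if b₀ = b₀ then (1 : R) else 0) = 1
      rw [if_pos rfl]
    rw [h2, one_mul]
    have h3 : (insert none (T.map Function.Embedding.some)).erase (Function.Embedding.some b₀) =
        insert none ((T.erase b₀).map Function.Embedding.some) := by
      ext x
      cases x with
      | none => simp
      | some y => simp
    have h4 : (none : Option B) ∉ (T.erase b₀).map Function.Embedding.some := by simp
    rw [h3, pm_insert_col N' _ _ none h4, sum_map, sum_eq_single a₀]
    · have h5 : N' (Function.Embedding.some a₀) none = 1 := by
        show (if a₀ = a₀ then (1 : R) else 0) = 1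
        rw [if_pos rfl]
      have h6 : (S.map Function.Embedding.some).erase (Function.Embedding.some a₀) =
          (S.erase a₀).map Function.Embedding.some := by
        ext x
        cases x with
        | none => simp
        | some y => simp
      rw [h5, one_mul, h6, hmap]
    · intro x _ hx
      have : N' (Function.Embedding.some x) none = 0 := by
        show (if x = a₀ then (1 : R) else 0) = 0
        rw [if_neg hx]
      rw [this, zero_mul]
    · intro h
      exact absurd ha h
  · intro y _ hy
    have : N' none (Function.Embedding.some y) = 0 := by
      show (if y = b₀ then (1 : R) else 0) = 0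
      rw [if_neg hy]
    rw [this, zero_mul]
  · intro h
    exact absurd hb h

end Aux

section

variable {ι : Type} {α β : Type} [Fintype α] [Fintype β] [DecidableEq α] [DecidableEq β]

/-- the rows of the extended matrix -/
def extRow {A α : Type} : A ⊕ Option α → Option (A ⊕ α)
  | Sum.inl p => some (Sum.inl p)
  | Sum.inr none => none
  | Sum.inr (some a) => some (Sum.inr a)

/-- G3: a new pair of ports joined by an entry `1` -/
theorem Rep.extend {p : ℕ} {w : Finset α → Finset β → MvPolynomial ι ℂ} (h : Rep α β p w) :
    Rep (Option α) (Option β) p
      (fun S T => if (none ∈ S ↔ none ∈ T) then w S.eraseNone T.eraseNone else 0) := by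
  obtain ⟨P, Q, iP, iQ, dP, dQ, hP, hQ, N, hN, hw⟩ := h
  let N' : P ⊕ Option α → Q ⊕ Option β → MvPolynomial ι ℂ := fun x y =>
    match extRow x, extRow y with
    | some x', some y' => N x' y'
    | none, none => 1
    | _, _ => 0
  let e : P ⊕ α ↪ P ⊕ Option α := ⟨Sum.map id some, by
    intro x y hxy
    rcases x with x | x <;> rcases y with y | y <;> simp_all⟩
  let f : Q ⊕ β ↪ Q ⊕ Option β := ⟨Sum.map id some, by
    intro x y hxy
    rcases x with x | x <;> rcases y with y | y <;> simp_all⟩
  have hee : ∀ S : Finset α, (univ.disjSum S).map e = univ.disjSum (S.map Function.Embedding.some) := by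
    intro S
    ext x
    rcases x with x | (_ | x) <;> simp [e]
  have hff : ∀ T : Finset β, (univ.disjSum T).map f = univ.disjSum (T.map Function.Embedding.some) := by
    intro T
    ext x
    rcases x with x | (_ | x) <;> simp [f]
  have hmap : ∀ (S : Finset α) (T : Finset β),
      pm N' (univ.disjSum (S.map Function.Embedding.some))
        (univ.disjSum (T.map Function.Embedding.some)) = w S T := by
    intro S T
    rw [← hee, ← hff, pm_map, ← hw S T]
    apply pm_congr
    rintro (a | a) _ (b | b) _ <;> rfl
  refine ⟨P, Q, iP, iQ, dP, dQ, hP, hQ, N', ?_, ?_⟩
  · rintro (x | (_ | x)) (y | (_ | y))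
    · exact hN _ _
    · simp [N', extRow]
    · exact hN _ _
    · simp [N', extRow]
    · simp [N', extRow]
    · simp [N', extRow]
    · exact hN _ _
    · simp [N', extRow]
    · exact hN _ _
  · intro S T
    have hrow : ∀ y : Q ⊕ Option β, y ≠ Sum.inr none → N' (Sum.inr none) y = 0 := by
      rintro (y | (_ | y)) hy
      · rfl
      · exact absurd rfl hy
      · rfl
    have hcol : ∀ x : P ⊕ Option α, x ≠ Sum.inr none → N' x (Sum.inr none) = 0 := by
      rintro (y | (_ | y)) hy
      · rfl
      · exact absurd rfl hy
      · rfl
    show _ = if (none ∈ S ↔ none ∈ T) then w (eraseNone S) (eraseNone T) else 0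
    by_cases hS : none ∈ S
    · by_cases hT : none ∈ T
      · rw [if_pos (iff_of_true hS hT)]
        have h1 : (univ : Finset P).disjSum S =
            insert (Sum.inr none) (univ.disjSum (S.eraseNone.map Function.Embedding.some)) := by
          ext x
          rcases x with x | (_ | x) <;> simp [hS]
        have h2 : (univ : Finset Q).disjSum T =
            insert (Sum.inr none) (univ.disjSum (T.eraseNone.map Function.Embedding.some)) := by
          ext x
          rcases x with x | (_ | x) <;> simp [hT]
        have h3 : (Sum.inr none : P ⊕ Option α) ∉
            univ.disjSum (S.eraseNone.map Function.Embedding.some) := by simp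
        have h4 : (Sum.inr none : Q ⊕ Option β) ∉
            univ.disjSum (T.eraseNone.map Function.Embedding.some) := by simp
        rw [h1, h2, pm_insert _ _ _ _ h3, sum_eq_single (Sum.inr none)]
        · rw [erase_insert h4, hmap]
          have : N' (Sum.inr none) (Sum.inr none) = 1 := rfl
          rw [this, one_mul]
        · intro c _ hc
          rw [hrow c hc, zero_mul]
        · intro h
          exact absurd (mem_insert_self _ _) h
      · rw [if_neg (fun h => hT (h.1 hS))]
        refine pm_eq_zero_of_row N' _ _ (Sum.inr none) (by simp [hS]) fun b hb => hrow b ?_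
        rintro rfl
        simp [hT] at hb
    · by_cases hT : none ∈ T
      · rw [if_neg (fun h => hS (h.2 hT))]
        refine pm_eq_zero_of_col N' _ _ (Sum.inr none) (by simp [hT]) fun b hb => hcol b ?_
        rintro rfl
        simp [hS] at hb
      · rw [if_pos (iff_of_false hS hT), ← hmap]
        congr 2
        · ext x
          cases x with
          | none => simp [hS]
          | some x => simp
        · ext x
          cases x with
          | none => simp [hT]
          | some x => simp

theorem bord_degree {A B : Type} [DecidableEq A] [DecidableEq B] (N : A → B → MvPolynomial ι ℂ)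
    (hN : ∀ x y, (N x y).totalDegree ≤ 1) (a₀ : A) (b₀ : B) (x : Option A) (y : Option B) :
    (bord N (fun y => if y = b₀ then 1 else 0) (fun x => if x = a₀ then 1 else 0) x y).totalDegree
      ≤ 1 := by
  rcases x with _ | x <;> rcases y with _ | y
  · simp [bord]
  · show (if y = b₀ then (1 : MvPolynomial ι ℂ) else 0).totalDegree ≤ 1
    split_ifs <;> simp
  · show (if x = a₀ then (1 : MvPolynomial ι ℂ) else 0).totalDegree ≤ 1
    split_ifs <;> simp
  · exact hN x y

/-- the rows of the closed matrix in terms of the old ones -/
def clo (P α : Type) : Option (Option P) ⊕ α ≃ Option (P ⊕ Option α) where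
  toFun
    | Sum.inl none => none
    | Sum.inl (some none) => some (Sum.inr none)
    | Sum.inl (some (some p)) => some (Sum.inl p)
    | Sum.inr a => some (Sum.inr (some a))
  invFun
    | none => Sum.inl none
    | some (Sum.inr none) => Sum.inl (some none)
    | some (Sum.inl p) => Sum.inl (some (some p))
    | some (Sum.inr (some a)) => Sum.inr a
  left_inv := by rintro ((_ | (_ | x)) | x) <;> rfl
  right_inv := by rintro (_ | (x | (_ | x))) <;> rfl

theorem map_clo (P α : Type) [Fintype P] [DecidableEq P] [DecidableEq α] (S : Finset α) :
    ((univ : Finset (Option (Option P))).disjSum S).map (clo P α).toEmbedding =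
      insert none ((univ.disjSum S.insertNone).map Function.Embedding.some) := by
  ext x
  rw [mem_map_equiv]
  rcases x with _ | (x | (_ | x)) <;> simp [clo]

/-- G4: closing a pair of ports -/
theorem Rep.close {p : ℕ} {w : Finset (Option α) → Finset (Option β) → MvPolynomial ι ℂ}
    (h : Rep (Option α) (Option β) p w) :
    Rep α β (p + 2)
      (fun S T => w (S.map .some) (T.map .some) + w S.insertNone T.insertNone) := by
  obtain ⟨P, Q, iP, iQ, dP, dQ, hP, hQ, N, hN, hw⟩ := h
  refine ⟨Option (Option P), Option (Option Q), inferInstance, inferInstance, inferInstance,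
    inferInstance, by simp [hP], by simp [hQ], fun x y =>
      bord N (fun y => if y = Sum.inr none then 1 else 0) (fun x => if x = Sum.inr none then 1 else 0)
        (clo P α x) (clo Q β y), ?_, ?_⟩
  · exact fun x y => bord_degree N hN _ _ _ _
  · intro S T
    have h1 := pm_map (bord N (fun y => if y = Sum.inr none then (1 : MvPolynomial ι ℂ) else 0)
      (fun x => if x = Sum.inr none then (1 : MvPolynomial ι ℂ) else 0))
      (clo P α).toEmbedding (clo Q β).toEmbedding (univ.disjSum S) (univ.disjSum T)
    refine h1.symm.trans ?_
    rw [map_clo, map_clo, pm_bord N (Sum.inr none) (Sum.inr none) _ _ (by simp) (by simp), hw]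
    congr 1
    rw [← hw]
    congr 1
    · ext x
      rcases x with x | (_ | x) <;> simp
    · ext x
      rcases x with x | (_ | x) <;> simp

end

end L5lead.NC
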